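import Pool.Agent.Q56.CT.Weil

/-!
# Relations between Weil numbers
-/

namespace Pool.Agent.Q56.CT

open Pool.Agent.Q56.CTS

variable {K : Type*} [Field K] [CharZero K] {q : ℕ}

/-- The rules: `A s` means that the words with the labels `s` are algebraic. A label is a Weil number
of weight one, or a Weil number of weight `i` together with `i`. -/
structure Rules (q : ℕ) (A : Multiset (K ⊕ ℕ × K) → Prop) : Prop where
  one : A 0
  add : ∀ s t, A s → A t → A (s + t)
  cancel : ∀ s y, IsWeilNumber q 1 y → A (s + {Sum.inl y, Sum.inl ((q : K) / y)}) → A s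
  mid : ∀ z w y, IsWeilNumber q 1 z → IsWeilNumber q 1 w → IsWeilNumber q 1 y → z * w = y * y →
    A {Sum.inl z, Sum.inl w, Sum.inl ((q : K) / y), Sum.inl ((q : K) / y)}
  mix : ∀ (i : ℕ) (α β : K), 0 < i → IsWeilNumber q i α → IsWeilNumber q 1 β → β ^ i = α →
    A ({Sum.inr (i, α)} + Multiset.replicate i (Sum.inl ((q : K) / β)))

namespace Rules

variable {A : Multiset (K ⊕ ℕ × K) → Prop} (R : Rules q A) {u : Multiset (K ⊕ ℕ × K)}

include R

lemma expand {z w y : K} (hz : IsWeilNumber q 1 z) (hw : IsWeilNumber q 1 w)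
    (hy : IsWeilNumber q 1 y) (h : z * w = y * y) (hA : A (u + {Sum.inl y, Sum.inl y})) :
    A (u + {Sum.inl z, Sum.inl w}) := by
  have h1 := R.add _ _ hA (R.mid z w y hz hw hy h)
  apply R.cancel _ y hy
  apply R.cancel _ y hy
  have h2 : u + {Sum.inl y, Sum.inl y} + {Sum.inl z, Sum.inl w, Sum.inl ((q : K) / y),
      Sum.inl ((q : K) / y)} = u + {Sum.inl z, Sum.inl w} + {Sum.inl y, Sum.inl ((q : K) / y)} +
        {Sum.inl y, Sum.inl ((q : K) / y)} := by
    simp only [Multiset.insert_eq_cons, ← Multiset.singleton_add]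
    abel
  rwa [h2] at h1

lemma contract (hq : 0 < q) {z w y : K} (hz : IsWeilNumber q 1 z) (hw : IsWeilNumber q 1 w)
    (hy : IsWeilNumber q 1 y) (h : z * w = y * y) (hA : A (u + {Sum.inl z, Sum.inl w})) :
    A (u + {Sum.inl y, Sum.inl y}) := by
  have hq0 : ((q : ℕ) : K) ≠ 0 := by exact_mod_cast hq.ne'
  have hy0 := weil_ne hq hy
  have hz0 := weil_ne hq hz
  have hw0 := weil_ne hq hw
  have h1 := R.mid ((q : K) / z) ((q : K) / w) ((q : K) / y) (weil_conj hq hz) (weil_conj hq hw)
    (weil_conj hq hy) (by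
      rw [div_mul_div_comm, div_mul_div_comm, h])
  have h3 : (q : K) / ((q : K) / y) = y := by field_simp
  rw [h3] at h1
  have h4 := R.add _ _ hA h1
  apply R.cancel _ z hz
  apply R.cancel _ w hw
  have h2 : u + {Sum.inl z, Sum.inl w} + {Sum.inl ((q : K) / z), Sum.inl ((q : K) / w),
      Sum.inl y, Sum.inl y} = u + {Sum.inl y, Sum.inl y} + {Sum.inl z, Sum.inl ((q : K) / z)} +
        {Sum.inl w, Sum.inl ((q : K) / w)} := by
    simp only [Multiset.insert_eq_cons, ← Multiset.singleton_add]
    abel
  rwa [h2] at h4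

lemma pair (hq : 0 < q) {y : K} (hy : IsWeilNumber q 1 y) :
    A {Sum.inl y, Sum.inl ((q : K) / y)} := by
  have h1 := R.mid y y y hy hy hy rfl
  apply R.cancel _ y hy
  have h2 : ({Sum.inl y, Sum.inl y, Sum.inl ((q : K) / y), Sum.inl ((q : K) / y)} :
      Multiset (K ⊕ ℕ × K)) =
      {Sum.inl y, Sum.inl ((q : K) / y)} + {Sum.inl y, Sum.inl ((q : K) / y)} := by
    simp only [Multiset.insert_eq_cons, ← Multiset.singleton_add]
    abel
  rwa [h2] at h1

lemma cancelN {y : K} (hy : IsWeilNumber q 1 y) : ∀ (n : ℕ) (u : Multiset (K ⊕ ℕ × K)),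
    A (u + Multiset.replicate n (Sum.inl y) + Multiset.replicate n (Sum.inl ((q : K) / y))) → A u
  | 0, u, h => by simpa using h
  | n + 1, u, h => by
    apply R.cancel _ y hy
    apply cancelN hy n
    rw [Multiset.replicate_succ, Multiset.replicate_succ, ← Multiset.singleton_add,
      ← Multiset.singleton_add] at h
    have h2 : u + ({Sum.inl y} + Multiset.replicate n (Sum.inl y)) +
        ({Sum.inl ((q : K) / y)} + Multiset.replicate n (Sum.inl ((q : K) / y))) =
        u + {Sum.inl y, Sum.inl ((q : K) / y)} + Multiset.replicate n (Sum.inl y) +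
          Multiset.replicate n (Sum.inl ((q : K) / y)) := by
      simp only [Multiset.insert_eq_cons, ← Multiset.singleton_add]
      abel
    rwa [h2] at h

lemma expandN {z w y : K} (hz : IsWeilNumber q 1 z) (hw : IsWeilNumber q 1 w)
    (hy : IsWeilNumber q 1 y) (h : z * w = y * y) : ∀ (n : ℕ) (u : Multiset (K ⊕ ℕ × K)),
    A (u + Multiset.replicate (2 * n) (Sum.inl y)) →
      A (u + (Multiset.replicate n (Sum.inl z) + Multiset.replicate n (Sum.inl w)))
  | 0, u, hA => by simpa using hA
  | n + 1, u, hA => by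
    have e1 : u + Multiset.replicate (2 * (n + 1)) (Sum.inl y) =
        (u + {Sum.inl y, Sum.inl y}) + Multiset.replicate (2 * n) (Sum.inl y) := by
      rw [show 2 * (n + 1) = 2 * n + 1 + 1 by ring, Multiset.replicate_succ,
        Multiset.replicate_succ]
      simp only [Multiset.insert_eq_cons, ← Multiset.singleton_add]
      abel
    rw [e1] at hA
    have h1 := expandN hz hw hy h n _ hA
    have e2 : (u + {Sum.inl y, Sum.inl y}) + (Multiset.replicate n (Sum.inl z) +
        Multiset.replicate n (Sum.inl w)) = (u + (Multiset.replicate n (Sum.inl z) +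
        Multiset.replicate n (Sum.inl w))) + {Sum.inl y, Sum.inl y} := by abel
    rw [e2] at h1
    have h2 := R.expand hz hw hy h h1
    rw [Multiset.replicate_succ, Multiset.replicate_succ]
    have e3 : (u + (Multiset.replicate n (Sum.inl z) + Multiset.replicate n (Sum.inl w))) +
        {Sum.inl z, Sum.inl w} = u + ((Sum.inl z ::ₘ Multiset.replicate n (Sum.inl z)) +
          (Sum.inl w ::ₘ Multiset.replicate n (Sum.inl w))) := by
      simp only [Multiset.insert_eq_cons, ← Multiset.singleton_add]
      abel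
    rwa [e3] at h2

lemma contractN (hq : 0 < q) {z w y : K} (hz : IsWeilNumber q 1 z) (hw : IsWeilNumber q 1 w)
    (hy : IsWeilNumber q 1 y) (h : z * w = y * y) : ∀ (n : ℕ) (u : Multiset (K ⊕ ℕ × K)),
    A (u + (Multiset.replicate n (Sum.inl z) + Multiset.replicate n (Sum.inl w))) →
      A (u + Multiset.replicate (2 * n) (Sum.inl y))
  | 0, u, hA => by simpa using hA
  | n + 1, u, hA => by
    have e3 : (u + (Multiset.replicate n (Sum.inl z) + Multiset.replicate n (Sum.inl w))) +
        {Sum.inl z, Sum.inl w} = u + ((Sum.inl z ::ₘ Multiset.replicate n (Sum.inl z)) +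
          (Sum.inl w ::ₘ Multiset.replicate n (Sum.inl w))) := by
      simp only [Multiset.insert_eq_cons, ← Multiset.singleton_add]
      abel
    rw [Multiset.replicate_succ, Multiset.replicate_succ, ← e3] at hA
    have h2 := R.contract hq hz hw hy h hA
    have e2 : (u + {Sum.inl y, Sum.inl y}) + (Multiset.replicate n (Sum.inl z) +
        Multiset.replicate n (Sum.inl w)) = (u + (Multiset.replicate n (Sum.inl z) +
        Multiset.replicate n (Sum.inl w))) + {Sum.inl y, Sum.inl y} := by abel
    rw [← e2] at h2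
    have h1 := contractN hq hz hw hy h n _ h2
    have e1 : u + Multiset.replicate (2 * (n + 1)) (Sum.inl y) =
        (u + {Sum.inl y, Sum.inl y}) + Multiset.replicate (2 * n) (Sum.inl y) := by
      rw [show 2 * (n + 1) = 2 * n + 1 + 1 by ring, Multiset.replicate_succ,
        Multiset.replicate_succ]
      simp only [Multiset.insert_eq_cons, ← Multiset.singleton_add]
      abel
    rw [e1]
    exact h1

/-- Words of length `2 ^ m` reduce to the powers of one Weil number. -/
lemma powers [IsAlgClosed K] : ∀ (m : ℕ) (l : List K), l.length = 2 ^ m →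
    (∀ x ∈ l, IsWeilNumber q 1 x) → ∃ y, IsWeilNumber q 1 y ∧ y ^ (2 ^ m) = l.prod ∧
      ∀ u : Multiset (K ⊕ ℕ × K), A (u + Multiset.replicate (2 ^ m) (Sum.inl y)) →
        A (u + (l : Multiset K).map Sum.inl)
  | 0, l, hl, hW => by
    obtain ⟨y, rfl⟩ := List.length_eq_one_iff.1 hl
    refine ⟨y, hW y (by simp), by simp, fun u h => ?_⟩
    rw [pow_zero, Multiset.replicate_one] at h
    simpa using h
  | m + 1, l, hl, hW => by
    obtain ⟨y₁, hy₁, hp₁, h₁⟩ := powers m (l.take (2 ^ m)) (by
      rw [List.length_take, hl, pow_succ]; omega) (fun x hx => hW x (List.mem_of_mem_take hx))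
    obtain ⟨y₂, hy₂, hp₂, h₂⟩ := powers m (l.drop (2 ^ m)) (by
      rw [List.length_drop, hl, pow_succ]; omega) (fun x hx => hW x (List.mem_of_mem_drop hx))
    obtain ⟨y, hy⟩ := IsAlgClosed.exists_pow_nat_eq (y₁ * y₂) (n := 2) (by norm_num)
    have hyW : IsWeilNumber q 1 y := by
      apply weil_root (n := 2) (by norm_num)
      rw [hy]
      have h1 : IsWeilNumber q (1 + 1) (y₁ * y₂) := weil_mul hy₁ hy₂
      exact h1
    have hl' : ((l.take (2 ^ m) : Multiset K) + (l.drop (2 ^ m) : Multiset K)) = l := by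
      rw [Multiset.coe_add, List.take_append_drop]
    refine ⟨y, hyW, ?_, fun u h => ?_⟩
    · rw [pow_succ, mul_comm, pow_mul, hy, mul_pow, hp₁, hp₂, ← List.prod_append,
        List.take_append_drop]
    · have h3 := R.expandN hy₁ hy₂ hyW (by rw [← hy, sq]) (2 ^ m) u (by
        rw [← pow_succ']; exact h)
      rw [← add_assoc] at h3
      have h4 := h₂ _ h3
      have e1 : u + Multiset.replicate (2 ^ m) (Sum.inl y₁) +
          (l.drop (2 ^ m) : Multiset K).map Sum.inl =
          u + (l.drop (2 ^ m) : Multiset K).map Sum.inl +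
            Multiset.replicate (2 ^ m) (Sum.inl y₁) := by abel
      rw [e1] at h4
      have h5 := h₁ _ h4
      have e2 : u + (l.drop (2 ^ m) : Multiset K).map Sum.inl +
          (l.take (2 ^ m) : Multiset K).map Sum.inl =
          u + ((l.take (2 ^ m) : Multiset K) + (l.drop (2 ^ m) : Multiset K)).map Sum.inl := by
        rw [Multiset.map_add]; abel
      rw [e2, hl'] at h5
      exact h5

/-- Powers of numbers which differ by roots of unity. -/
lemma roots (hq : 0 < q) : ∀ (m : ℕ) (y r : K), IsWeilNumber q 1 y → IsWeilNumber q 1 r →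
    y ^ (2 ^ m) = r ^ (2 ^ m) → ∀ u : Multiset (K ⊕ ℕ × K),
      A (u + Multiset.replicate (2 ^ m) (Sum.inl r)) →
        A (u + Multiset.replicate (2 ^ m) (Sum.inl y))
  | 0, y, r, hy, hr, h, u, hA => by
    have h1 : y = r := by simpa using h
    rw [h1]
    exact hA
  | m + 1, y, r, hy, hr, h, u, hA => by
    have hr0 := weil_ne hq hr
    set t := y * (y / r) with ht
    have hu : (y / r) ^ (2 ^ (m + 1)) = 1 := by
      rw [div_pow, h, div_self (pow_ne_zero _ hr0)]
    have htW : IsWeilNumber q 1 t := weil_unit (by positivity) hu hy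
    have htr : t * r = y * y := by
      rw [ht]
      field_simp
    have htp : t ^ (2 ^ m) = r ^ (2 ^ m) := by
      have h1 : t ^ (2 ^ m) * r ^ (2 ^ m) = r ^ (2 ^ m) * r ^ (2 ^ m) := by
        rw [← mul_pow, htr, ← sq, ← pow_mul, ← pow_succ', h, pow_succ', pow_mul, sq, mul_pow]
      exact mul_right_cancel₀ (pow_ne_zero _ hr0) h1
    rw [show 2 ^ (m + 1) = 2 * 2 ^ m by ring]
    apply R.contractN hq htW hr hy htr
    have e0 : Multiset.replicate (2 ^ (m + 1)) (Sum.inl r : K ⊕ ℕ × K) =
        Multiset.replicate (2 ^ m) (Sum.inl r) + Multiset.replicate (2 ^ m) (Sum.inl r) := by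
      rw [← Multiset.replicate_add]
      congr 1
      ring
    rw [e0, ← add_assoc] at hA
    have h2 := roots hq m t r htW hr htp _ hA
    have e1 : u + Multiset.replicate (2 ^ m) (Sum.inl r) + Multiset.replicate (2 ^ m) (Sum.inl t) =
        u + (Multiset.replicate (2 ^ m) (Sum.inl t) + Multiset.replicate (2 ^ m) (Sum.inl r)) := by
      abel
    rwa [e1] at h2

/-- Words of weight one. -/
theorem weight_one [IsAlgClosed K] (hq : 0 < q) {l : List K}
    (hW : ∀ x ∈ l, IsWeilNumber q 1 x) {j : ℕ} (hl : l.length = 2 * j)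
    (hp : l.prod = (q : K) ^ j) : A ((l : Multiset K).map Sum.inl) := by
  have hq0 : ((q : ℕ) : K) ≠ 0 := by exact_mod_cast hq.ne'
  obtain ⟨r, hr⟩ := IsAlgClosed.exists_pow_nat_eq ((q : ℕ) : K) (n := 2) (by norm_num)
  have hrW : IsWeilNumber q 1 r := by
    apply weil_root (n := 2) (by norm_num)
    rw [hr]
    exact weil_q q
  have hr0 := weil_ne hq hrW
  have hrr : (q : K) / r = r := by
    rw [← hr, sq, mul_div_assoc, div_self hr0, mul_one]
  have hpair : A {Sum.inl r, Sum.inl r} := by
    have h1 := R.pair hq hrW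
    rwa [hrr] at h1
  have hreps : ∀ n, A (Multiset.replicate (2 * n) (Sum.inl r)) := by
    intro n
    induction n with
    | zero => exact R.one
    | succ n ih =>
      have h1 := R.add _ _ ih hpair
      have e1 : Multiset.replicate (2 * n) (Sum.inl r : K ⊕ ℕ × K) + {Sum.inl r, Sum.inl r} =
          Multiset.replicate (2 * (n + 1)) (Sum.inl r) := by
        rw [show 2 * (n + 1) = 2 * n + 1 + 1 by ring, Multiset.replicate_succ,
          Multiset.replicate_succ]
        simp only [Multiset.insert_eq_cons, ← Multiset.singleton_add]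
        abel
      rwa [e1] at h1
  -- the number of letters
  have hj : 2 * j ≤ 2 ^ (2 * j) := (Nat.lt_two_pow_self).le
  set m := 2 * j with hm
  set l' : List K := l ++ List.replicate (2 ^ (m + 1) - m) r with hl'
  obtain ⟨c, hc⟩ : ∃ c, 2 ^ (m + 1) - m = 2 * c := ⟨2 ^ m - j, by rw [pow_succ]; omega⟩
  have hlen : l'.length = 2 ^ (m + 1) := by
    rw [hl', List.length_append, List.length_replicate, hl]
    have : 2 ^ (m + 1) = 2 ^ m + 2 ^ m := by rw [pow_succ]; ring
    omega
  obtain ⟨y, hy, hyp, hyA⟩ := R.powers (m + 1) l' hlen (by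
    intro x hx
    rcases List.mem_append.1 hx with h1 | h1
    · exact hW x h1
    · rw [List.eq_of_mem_replicate h1]; exact hrW)
  have hprod : l'.prod = r ^ (2 ^ (m + 1)) := by
    have e1 : 2 ^ (m + 1) = 2 * j + (2 ^ (m + 1) - m) := by
      have : 2 ^ (m + 1) = 2 ^ m + 2 ^ m := by rw [pow_succ]; ring
      omega
    rw [hl', List.prod_append, List.prod_replicate, hp, ← hr, ← pow_mul]
    conv_rhs => rw [e1, pow_add]
  have h1 := hyA 0 (R.roots hq (m + 1) y r hy hrW (by rw [hyp, hprod]) 0 (by
    rw [zero_add, show 2 ^ (m + 1) = 2 * 2 ^ m by ring]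
    exact hreps _))
  -- remove the additional letters
  have h2 : ∀ n, A ((l : Multiset K).map Sum.inl + Multiset.replicate (2 * n) (Sum.inl r)) →
      A ((l : Multiset K).map Sum.inl) := by
    intro n hn
    apply R.cancelN hrW n
    rw [hrr, add_assoc, ← Multiset.replicate_add, ← two_mul]
    exact hn
  apply h2 c
  rw [zero_add, hl', ← Multiset.coe_add, Multiset.map_add, Multiset.coe_replicate,
    Multiset.map_replicate, hc] at h1
  exact h1

/-- **All relations follow from the rules.** -/
theorem all [IsAlgClosed K] (hq : 0 < q) : ∀ (t : Multiset (ℕ × K)) (s : Multiset K),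
    (∀ x ∈ t, 0 < x.1 ∧ IsWeilNumber q x.1 x.2) → (∀ x ∈ s, IsWeilNumber q 1 x) → ∀ j : ℕ,
      Multiset.card s + (t.map Prod.fst).sum = 2 * j →
      s.prod * (t.map Prod.snd).prod = (q : K) ^ j → A (s.map Sum.inl + t.map Sum.inr) := by
  intro t
  induction t using Multiset.induction with
  | empty =>
    intro s _ hs j hj hp
    obtain ⟨l, rfl⟩ := Quot.exists_rep s
    simp only [Multiset.map_zero, Multiset.sum_zero, Multiset.prod_zero, add_zero, mul_one] at hj hp ⊢
    refine R.weight_one hq hs (l := l) (j := j) ?_ ?_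
    · exact hj
    · exact hp
  | cons x t ih =>
    intro s ht hs j hj hp
    obtain ⟨i, α⟩ := x
    obtain ⟨hi, hα⟩ := ht (i, α) (Multiset.mem_cons_self _ _)
    obtain ⟨β, hβ⟩ := IsAlgClosed.exists_pow_nat_eq α hi
    have hβW : IsWeilNumber q 1 β := by
      apply weil_root hi
      rw [hβ, mul_one]
      exact hα
    have h1 := ih (s + Multiset.replicate i β) (fun x hx => ht x (Multiset.mem_cons_of_mem hx))
      (by
        intro x hx
        rcases Multiset.mem_add.1 hx with h2 | h2
        · exact hs x h2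
        · rw [Multiset.eq_of_mem_replicate h2]; exact hβW) j (by
        rw [Multiset.card_add, Multiset.card_replicate, ← hj, Multiset.map_cons,
          Multiset.sum_cons]
        ring) (by
        rw [Multiset.prod_add, Multiset.prod_replicate, hβ, ← hp, Multiset.map_cons,
          Multiset.prod_cons]
        ring)
    have h2 := R.add _ _ h1 (R.mix i α β hi hα hβW hβ)
    rw [Multiset.map_add, Multiset.map_replicate] at h2
    apply R.cancelN hβW i
    have e1 : s.map Sum.inl + Multiset.replicate i (Sum.inl β) + t.map Sum.inr +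
        ({Sum.inr (i, α)} + Multiset.replicate i (Sum.inl ((q : K) / β))) =
        s.map Sum.inl + ((i, α) ::ₘ t).map Sum.inr + Multiset.replicate i (Sum.inl β) +
          Multiset.replicate i (Sum.inl ((q : K) / β)) := by
      rw [Multiset.map_cons]
      simp only [← Multiset.singleton_add]
      abel
    rwa [e1] at h2

end Rules

end Pool.Agent.Q56.CT
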