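import Mathlib

/-!
# Weil numbers, and some algebra
-/

namespace Pool.Agent.Q56.CTS

/-- The number `x` is a Weil number of weight `i` over the field with `q` elements: it is an
algebraic integer, and all its complex conjugates have the absolute value `q ^ (i / 2)`. -/
def IsWeilNumber (q i : ℕ) {K : Type*} [Field K] [CharZero K] (x : K) : Prop :=
  IsIntegral ℤ x ∧ ∀ z : ℂ, Polynomial.aeval z (minpoly ℚ x) = 0 → ‖z‖ ^ 2 = (q : ℝ) ^ i

variable {K A B C : Type*} [Field K] [Ring A] [Algebra K A] [Ring B] [Algebra K B] [Ring C]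
  [Algebra K C]

/-- The number `α` is an eigenvalue of `f` on `p`. -/
def IsEigOn (f : A →ₐ[K] A) (p : Submodule K A) (α : K) : Prop := ∃ x ∈ p, x ≠ 0 ∧ f x = α • x

/-- The products of elements of `p` span `A`. -/
def Generates (p : Submodule K A) : Prop :=
  ∀ x : A, x ∈ Submodule.span K {y | ∃ l : List A, (∀ a ∈ l, a ∈ p) ∧ y = l.prod}

/-- The form `t(c x y)` on `p` is nondegenerate. -/
def NondegOn (p : Submodule K A) (t : A →ₗ[K] K) (c : A) : Prop :=
  ∀ x ∈ p, (∀ y ∈ p, t (c * x * y) = 0) → x = 0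

/-- The span of the products `f(x) g(y)`, for `x` in `p` and `y` in `p'`. -/
def tensorSpan (f : A →ₐ[K] C) (g : B →ₐ[K] C) (p : Submodule K A) (p' : Submodule K B) :
    Submodule K C :=
  Submodule.span K {t | ∃ x ∈ p, ∃ y ∈ p', t = f x * g y}

/-- The generalised eigenvectors of `f` in `p` for the eigenvalue `c` are in `p'`. -/
def GenEigIn (f : A →ₐ[K] A) (c : K) (p p' : Submodule K A) : Prop :=
  Module.End.maxGenEigenspace (M := A) f.toLinearMap c ⊓ p ≤ p'

end Pool.Agent.Q56.CTS
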