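import Pool.Agent.Q56.CT.WDefs

/-!
# Properties of Weil numbers
-/

namespace Pool.Agent.Q56.CT

open Polynomial Pool.Agent.Q56.CTS

variable {K : Type*} [Field K] [CharZero K] {q i : ℕ}

/-- The algebraic numbers in `K`. -/
abbrev An (K : Type*) [Field K] [CharZero K] : Type _ := algebraicClosure ℚ K

instance : Algebra.IsAlgebraic ℚ (An K) := algebraicClosure.isAlgebraic ℚ K

lemma aeval_hom {A B : Type*} [CommRing A] [CommRing B] (f : A →+* B) (x : A) (P : ℤ[X]) :
    f (aeval x P) = aeval (f x) P := (aeval_algHom_apply f.toIntAlgHom x P).symm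

lemma mem_An {x : K} (h : IsIntegral ℤ x) : x ∈ algebraicClosure ℚ K :=
  mem_algebraicClosure_iff.2 (h.tower_top (A := ℚ)).isAlgebraic

/-- an algebraic integer, as an algebraic number -/
def toAn {x : K} (h : IsIntegral ℤ x) : An K := ⟨x, mem_An h⟩

lemma minpoly_An (x : An K) : minpoly ℚ (x : K) = minpoly ℚ x :=
  minpoly.algebraMap_eq (algebraMap (An K) K).injective x

/-- The definition by embeddings. -/
lemma isWeil_iff {x : K} (h : IsIntegral ℤ x) : IsWeilNumber q i x ↔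
    ∀ σ : An K →ₐ[ℚ] ℂ, ‖σ (toAn h)‖ ^ 2 = (q : ℝ) ^ i := by
  have h1 : minpoly ℚ x = minpoly ℚ (toAn h) := minpoly_An (toAn h)
  constructor
  · rintro ⟨-, h2⟩ σ
    apply h2
    rw [h1, aeval_algHom_apply, minpoly.aeval, map_zero]
  · intro h2
    refine ⟨h, fun z hz => ?_⟩
    rw [h1] at hz
    obtain ⟨σ, hσ⟩ := IntermediateField.exists_algHom_of_splits_of_aeval (F := ℚ) (E := An K)
      (K := ℂ) (x := toAn h) (y := z) (fun x => ⟨Algebra.IsIntegral.isIntegral x,
        IsAlgClosed.splits _⟩) hz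
    rw [← hσ]
    exact h2 σ

lemma exists_emb (K : Type*) [Field K] [CharZero K] : Nonempty (An K →ₐ[ℚ] ℂ) :=
  ⟨IsAlgClosed.lift⟩

/-- powers -/
lemma weil_pow {x : K} (h : IsWeilNumber q i x) (n : ℕ) : IsWeilNumber q (n * i) (x ^ n) := by
  refine (isWeil_iff (h.1.pow n)).2 fun σ => ?_
  have h1 : σ (toAn (h.1.pow n)) = σ (toAn h.1) ^ n := by rw [← map_pow]; rfl
  rw [h1, norm_pow, ← pow_mul, mul_comm n 2, pow_mul, (isWeil_iff h.1).1 h σ, ← pow_mul,
    mul_comm i n]

lemma weil_mul {j : ℕ} {x y : K} (hx : IsWeilNumber q i x) (hy : IsWeilNumber q j y) :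
    IsWeilNumber q (i + j) (x * y) := by
  refine (isWeil_iff (hx.1.mul hy.1)).2 fun σ => ?_
  have h1 : σ (toAn (hx.1.mul hy.1)) = σ (toAn hx.1) * σ (toAn hy.1) := by rw [← map_mul]; rfl
  rw [h1, norm_mul, mul_pow, (isWeil_iff hx.1).1 hx σ, (isWeil_iff hy.1).1 hy σ, pow_add]

/-- roots -/
lemma weil_root {x : K} {n : ℕ} (hn : 0 < n) (h : IsWeilNumber q (n * i) (x ^ n)) :
    IsWeilNumber q i x := by
  have hx : IsIntegral ℤ x := IsIntegral.of_pow hn h.1
  refine (isWeil_iff hx).2 fun σ => ?_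
  have h1 : σ (toAn h.1) = σ (toAn hx) ^ n := by rw [← map_pow]; rfl
  have h2 := (isWeil_iff h.1).1 h σ
  rw [h1, norm_pow, ← pow_mul, mul_comm n 2, pow_mul, mul_comm n i, pow_mul] at h2
  exact (pow_left_inj₀ (by positivity) (by positivity) hn.ne').1 h2

/-- the number `q` -/
lemma weil_q (q : ℕ) : IsWeilNumber q 2 ((q : ℕ) : K) := by
  have h : IsIntegral ℤ ((q : ℕ) : K) := by
    have h1 := isIntegral_algebraMap (R := ℤ) (A := K) (x := (q : ℤ))
    simpa using h1
  refine (isWeil_iff h).2 fun σ => ?_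
  have h1 : σ (toAn h) = ((q : ℕ) : ℂ) := by
    have h2 : toAn h = ((q : ℕ) : An K) := rfl
    rw [h2, map_natCast]
  rw [h1, Complex.norm_natCast]

/-- roots of unity -/
lemma weil_unit {x u : K} {n : ℕ} (hn : 0 < n) (hu : u ^ n = 1) (h : IsWeilNumber q i x) :
    IsWeilNumber q i (x * u) := by
  apply weil_root hn
  rw [mul_pow, hu, mul_one]
  exact weil_pow h n

lemma weil_ne {x : K} (hq : 0 < q) (h : IsWeilNumber q i x) : x ≠ 0 := by
  rintro rfl
  obtain ⟨σ⟩ := exists_emb K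
  have h1 := (isWeil_iff h.1).1 h σ
  have h2 : σ (toAn h.1) = 0 := by
    have h3 : toAn h.1 = (0 : An K) := rfl
    rw [h3, map_zero]
  rw [h2, norm_zero] at h1
  have h4 : (0 : ℝ) < (q : ℝ) ^ i := by positivity
  rw [← h1] at h4
  norm_num at h4

/-- the conjugate -/
lemma weil_conj {x : K} (hq : 0 < q) (h : IsWeilNumber q 1 x) : IsWeilNumber q 1 ((q : K) / x) := by
  have hx0 := weil_ne hq h
  have hq0 : ((q : ℕ) : K) ≠ 0 := by exact_mod_cast hq.ne'
  have hmem : (q : K) / x ∈ algebraicClosure ℚ K :=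
    IntermediateField.div_mem _ (natCast_mem _ q) (mem_An h.1)
  set y : An K := ⟨(q : K) / x, hmem⟩ with hy
  have hσ : ∀ σ : An K →ₐ[ℚ] ℂ, σ y = star (σ (toAn h.1)) := by
    intro σ
    have h1 : y * toAn h.1 = ((q : ℕ) : An K) := by
      apply Subtype.ext
      change (q : K) / x * x = ((q : ℕ) : K)
      exact div_mul_cancel₀ _ hx0
    have h2 := congrArg σ h1
    rw [map_mul, map_natCast] at h2
    have h3 : star (σ (toAn h.1)) * σ (toAn h.1) = ((q : ℕ) : ℂ) := by
      have h4 : ‖σ (toAn h.1)‖ ^ 2 = (q : ℝ) := ((isWeil_iff h.1).1 h σ).trans (pow_one _)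
      have h5 : star (σ (toAn h.1)) * σ (toAn h.1) = ((‖σ (toAn h.1)‖ ^ 2 : ℝ) : ℂ) := by
        rw [mul_comm]
        have := Complex.mul_conj (σ (toAn h.1))
        rw [Complex.normSq_eq_norm_sq] at this
        exact this
      rw [h5, h4]
      norm_num
    have h6 : σ (toAn h.1) ≠ 0 := by
      intro h7
      rw [h7, mul_zero] at h3
      exact hq.ne' (by exact_mod_cast h3.symm)
    exact mul_right_cancel₀ h6 (h2.trans h3.symm)
  obtain ⟨P, hP, hP0⟩ := h.1
  have hint : IsIntegral ℤ ((q : K) / x) := by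
    refine ⟨P, hP, ?_⟩
    obtain ⟨σ⟩ := exists_emb K
    have h1 : aeval (toAn h.1) P = 0 := by
      apply (algebraMap (An K) K).injective
      rw [← aeval_algebraMap_apply, map_zero]
      exact hP0
    have h2 : aeval y P = 0 := by
      apply σ.toRingHom.injective
      change σ (aeval y P) = σ 0
      have h3 : σ (aeval y P) = aeval (σ y) P := aeval_hom (σ : An K →+* ℂ) y P
      have h4 : aeval (star (σ (toAn h.1))) P = star (aeval (σ (toAn h.1)) P) :=
        (aeval_hom (starRingEnd ℂ) (σ (toAn h.1)) P).symm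
      have h6 : aeval (σ (toAn h.1)) P = σ (aeval (toAn h.1) P) :=
        (aeval_hom (σ : An K →+* ℂ) (toAn h.1) P).symm
      rw [h3, hσ, h4, h6, h1, map_zero, star_zero]
    have h3 := congrArg (algebraMap (An K) K) h2
    rw [← aeval_algebraMap_apply, map_zero] at h3
    exact h3
  refine (isWeil_iff hint).2 fun σ => ?_
  have h1 : toAn hint = y := rfl
  rw [h1, hσ, norm_star]
  exact (isWeil_iff h.1).1 h σ

end Pool.Agent.Q56.CT
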